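import Pool.Agent.Lib.MP_a3e05c_co.S6.Graph
import Pool.Agent.Lib.MP_a3e05c_co.KL.FFG

/-!
# EULER, scalar block S6, degrees `D ≥ 40`

With `s = D - 1`, `α = j / s`, `b = -log bb (D / 2)`, `g = (1/2) log (2 s / (s + 1))`,
`c = s h + p - g`: the explicit bound of `FM` reduces S6 to `T ≤ α c + (1/2) log (1 - α)`, which is
concave in `α`; near `α = 1` the bound `FM ≤ 1 / 2` is used.
-/

open Finset

namespace MP_a3e05c_co.KL

private theorem Large_log_le {x : ℝ} (hx : 0 < x) : Real.log x ≤ 24658 / 10000 + x / 32 := by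
  have h1 := Real.log_le_sub_one_of_pos (x := x / 32) (by positivity)
  have h2 : Real.log (x / 32) = Real.log x - 5 * Real.log 2 := by
    rw [Real.log_div hx.ne' (by norm_num)]
    have h3 : (32 : ℝ) = 2 ^ 5 := by norm_num
    rw [h3, Real.log_pow]
    norm_num
  have h4 := Real.log_two_lt_d9
  rw [h2] at h1
  norm_num at h4 ⊢
  linarith

private theorem Large_log_ge {x : ℝ} (hx : 41 ≤ x) : 37 / 10 ≤ Real.log x := by
  have h1 : Real.log 41 ≤ Real.log x := Real.log_le_log (by norm_num) hx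
  have h2 : Real.log 41 = 5 * Real.log 2 + Real.log (1 + 9 / 32) := by
    have h3 : (41 : ℝ) = 2 ^ 5 * (1 + 9 / 32) := by norm_num
    rw [h3, Real.log_mul (by norm_num) (by norm_num), Real.log_pow]
    norm_num
  have h4 := Real.le_log_one_add_of_nonneg (x := 9 / 32) (by norm_num)
  have h5 := Real.log_two_gt_d9
  norm_num at h4 h5 h2 ⊢
  linarith

private theorem Large_pi : 45 / 100 ≤ Real.log (Real.pi / 2) := by
  have a1 := Real.le_log_one_add_of_nonneg (x := 1 / 10) (by norm_num)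
  have a2 := Real.le_log_one_add_of_nonneg (x := 72 / 1000) (by norm_num)
  have hp := Real.pi_gt_d4
  have h1 : (1 + 1 / 10 : ℝ) ^ 4 * (1 + 72 / 1000) ≤ Real.pi / 2 := by
    norm_num at hp ⊢
    linarith
  have h2 : Real.log ((1 + 1 / 10 : ℝ) ^ 4 * (1 + 72 / 1000)) ≤ Real.log (Real.pi / 2) :=
    Real.log_le_log (by norm_num) h1
  rw [Real.log_mul (by norm_num) (by norm_num), Real.log_pow] at h2
  norm_num at a1 a2 h2 ⊢
  linarith

/-- the scalar facts for `n = s + 2 ≥ 41` -/
private theorem Large_facts {n T b c : ℝ} (hn : 41 ≤ n)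
    (hT : T ≤ (Real.log n / 2 + 1 / 20) / n)
    (hb : 1 / 2 * Real.log (Real.pi * (n - 1 / 2) / 2) ≤ b)
    (hc : (n - 2) * (b - T) / n - 1 / 2 * Real.log 2 ≤ c) :
    T ≤ 47 / 1000 ∧ 3 / 2 ≤ c ∧ T ≤ 2 / (n - 2) * c + 1 / 2 * Real.log (1 - 2 / (n - 2)) ∧
      T ≤ c - 2 / 5 + 1 / 2 * Real.log (2 / (5 * c)) := by
  have hn0 : 0 < n := by linarith
  have hL1 := Large_log_le hn0
  have hL2 := Large_log_ge hn
  have hpi := Large_pi
  have hl2 := Real.log_two_lt_d9
  norm_num at hl2
  have hTn : T * n ≤ Real.log n / 2 + 1 / 20 := by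
    rwa [le_div_iff₀ hn0] at hT
  have hT1 : T ≤ 47 / 1000 := by
    refine hT.trans ?_
    rw [div_le_iff₀ hn0]
    linarith
  have hb1 : 1 / 2 * (Real.log n + 45 / 100 - 1 / (2 * n - 1)) ≤ b := by
    refine le_trans ?_ hb
    have h1 : Real.pi * (n - 1 / 2) / 2 = Real.pi / 2 * n * ((n - 1 / 2) / n) := by
      field_simp
    have h2 : 0 < (n - 1 / 2) / n := div_pos (by linarith) hn0
    have hp := Real.pi_pos
    rw [h1, Real.log_mul (by positivity) h2.ne', Real.log_mul (by positivity) hn0.ne']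
    have h3 := Real.one_sub_inv_le_log_of_pos h2
    have h4 : 1 - ((n - 1 / 2) / n)⁻¹ = -(1 / (2 * n - 1)) := by
      have h6 : 2 * n - 1 ≠ 0 := by linarith
      have h7 : (n - 1 / 2) / n = (2 * n - 1) / (2 * n) := by
        field_simp
      rw [h7, inv_div, eq_neg_iff_add_eq_zero]
      field_simp
      ring
    rw [h4] at h3
    linarith
  have hr : 1 / (2 * n - 1) ≤ 1 / 81 :=
    one_div_le_one_div_of_le (by norm_num) (by linarith)
  have hb2 : 2068 / 1000 ≤ b := by
    linarith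
  have hc2 : b - T - 2 * (b - T) / n - 1 / 2 * Real.log 2 ≤ c := by
    refine le_trans (le_of_eq ?_) hc
    field_simp
  have hc1 : 3 / 2 ≤ c := by
    refine le_trans ?_ hc
    have h1 : 39 / 41 * (b - T) ≤ (n - 2) * (b - T) / n := by
      rw [le_div_iff₀ hn0]
      have h2 : 0 ≤ b - T := by linarith
      nlinarith
    linarith
  refine ⟨hT1, hc1, ?_, ?_⟩
  · have hs2 : 0 < n - 2 := by linarith
    have hs4 : 0 < n - 4 := by linarith
    have h1 : -(1 / (n - 4)) ≤ 1 / 2 * Real.log (1 - 2 / (n - 2)) := by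
      have h2 : 0 < 1 - 2 / (n - 2) := by
        rw [sub_pos, div_lt_one hs2]
        linarith
      have h3 := Real.one_sub_inv_le_log_of_pos h2
      have h4 : 1 - (1 - 2 / (n - 2))⁻¹ = -(2 / (n - 4)) := by
        have h5 : 1 - 2 / (n - 2) = (n - 4) / (n - 2) := by
          field_simp
          ring
        rw [h5, inv_div]
        field_simp
        ring
      rw [h4] at h3
      have h6 : 2 / (n - 4) = 2 * (1 / (n - 4)) := by ring
      rw [h6] at h3
      linarith
    have h2 : 2 * (b - T) / n - Real.log 2 / (n - 2) ≤ 2 / (n - 2) * c := by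
      have h3 := mul_le_mul_of_nonneg_left hc (by positivity : 0 ≤ 2 / (n - 2))
      refine le_trans (le_of_eq ?_) h3
      field_simp
    have h3 : T + 1 / (n - 4) + Real.log 2 / (n - 2) ≤ 2 * (b - T) / n := by
      have e1 : n * (1 / (n - 4)) ≤ 41 / 37 := by
        rw [mul_one_div, div_le_div_iff₀ hs4 (by norm_num)]
        linarith
      have e2 : n * (Real.log 2 / (n - 2)) ≤ 73 / 100 := by
        rw [← mul_div_assoc, div_le_iff₀ hs2]
        nlinarith
      rw [le_div_iff₀ hn0]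
      have e3 : (T + 1 / (n - 4) + Real.log 2 / (n - 2)) * n =
          T * n + n * (1 / (n - 4)) + n * (Real.log 2 / (n - 2)) := by ring
      rw [e3]
      linarith
    linarith
  · have hc0 : 0 < c := by linarith
    have h1 : Real.log (2 / (5 * c)) = -Real.log (5 * c / 2) := by
      rw [← Real.log_inv, inv_div]
    have h2 : Real.log (5 * c / 2) ≤ 5 * c / 8 + 3863 / 10000 := by
      have h3 := Real.log_le_sub_one_of_pos (x := 5 * c / 8) (by positivity)
      have h4 : Real.log (5 * c / 8) = Real.log (5 * c / 2) - 2 * Real.log 2 := by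
        have h5 : 5 * c / 8 = 5 * c / 2 / 2 ^ 2 := by ring
        rw [h5, Real.log_div (by positivity) (by norm_num), Real.log_pow]
        norm_num
      rw [h4] at h3
      linarith
    rw [h1]
    linarith

/-- concavity -/
private theorem Large_mid {T c a0 a1 a : ℝ} (h0 : a0 ≤ a) (h1 : a ≤ a1) (ha1 : a1 < 1)
    (e0 : T ≤ a0 * c + 1 / 2 * Real.log (1 - a0)) (e1 : T ≤ a1 * c + 1 / 2 * Real.log (1 - a1)) :
    T ≤ a * c + 1 / 2 * Real.log (1 - a) := by
  have hf : ConcaveOn ℝ (Set.Ioi (0 : ℝ)) (fun x => (1 / 2 : ℝ) * Real.log x + (c - c * x)) := by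
    have g1 : ConcaveOn ℝ (Set.Ioi (0 : ℝ)) (fun x => (1 / 2 : ℝ) * Real.log x) := by
      have g2 := strictConcaveOn_log_Ioi.concaveOn.smul (by norm_num : (0 : ℝ) ≤ 1 / 2)
      exact g2
    refine g1.add ⟨convex_Ioi 0, fun x _ y _ p q _ _ hpq => le_of_eq ?_⟩
    have hq : q = 1 - p := by linarith
    subst hq
    simp only [smul_eq_mul]
    ring
  have h2 := hf.min_le_of_mem_Icc (x := 1 - a1) (y := 1 - a0) (z := 1 - a)
    (Set.mem_Ioi.2 (by linarith)) (Set.mem_Ioi.2 (by linarith))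
    ⟨by linarith, by linarith⟩
  have h3 : T ≤ min (1 / 2 * Real.log (1 - a1) + (c - c * (1 - a1)))
      (1 / 2 * Real.log (1 - a0) + (c - c * (1 - a0))) := by
    refine le_min ?_ ?_
    · linarith
    · linarith
  have h4 := h3.trans h2
  linarith

/-- `FM ≤ 1 / 2` -/
theorem Large_half {D : ℕ} (hD : Even D) (h4 : 4 ≤ D) {v : ℝ} (hv : v ≤ ((D - 1 : ℕ) : ℝ)) :
    FM (D - 1) 1 v ≤ 1 / 2 := by
  obtain ⟨m, hm⟩ := hD
  have h1 : (D - 1) % 2 = 1 := by omega
  unfold FM
  rw [h1, Nat.cast_one]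
  have hk : (1 : ℝ) ≤ ((D - 1 : ℕ) : ℝ) := by
    have : 1 ≤ D - 1 := by omega
    exact_mod_cast this
  refine (FF_antitone (le_max_right v 1) (max_le hv hk)).trans (le_of_eq ?_)
  unfold FF BN
  rw [h1, Nat.cast_one, sub_self, zero_div]
  rw [Finset.sum_eq_single 0]
  · simp [bb, Nat.centralBinom]
    norm_num
  · intro m _ hm0
    rw [zero_pow hm0]
    ring
  · intro h
    exact absurd (mem_range.2 (by omega)) h

private theorem Large_bb (m : ℕ) (hm : 0 < m) : -Real.log (2 * m) ≤ Real.log (bb m) := by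
  have h1 := Nat.four_pow_le_two_mul_self_mul_centralBinom m hm
  have hm0 : (0 : ℝ) < m := by exact_mod_cast hm
  have h2 : (4 : ℝ) ^ m ≤ 2 * m * (Nat.centralBinom m : ℝ) := by exact_mod_cast h1
  have h3 : (0 : ℝ) < 4 ^ m := by positivity
  rw [← Real.log_inv]
  apply Real.log_le_log (by positivity)
  unfold bb
  rw [inv_eq_one_div, div_le_div_iff₀ (by positivity) h3]
  linarith

/-- **S6, large degrees.** -/
theorem S6_large (hRT : RTmain) {D j : ℕ} (hD : Even D) (h : 40 ≤ D) (h2 : 2 ≤ j)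
    (hj : j + 1 ≤ D) : ScS6 D j := by
  have hDR : (40 : ℝ) ≤ D := by exact_mod_cast h
  have hjR : (2 : ℝ) ≤ j := by exact_mod_cast h2
  have hjD : (j : ℝ) + 1 ≤ D := by exact_mod_cast hj
  obtain ⟨s, hs⟩ : ∃ s : ℝ, s = (D : ℝ) - 1 := ⟨_, rfl⟩
  have hs39 : 39 ≤ s := by linarith
  have hs0 : 0 < s := by linarith
  have e1 : ((D - 1 : ℕ) : ℝ) = s := by
    rw [hs, Nat.cast_sub (by omega)]; simp
  obtain ⟨b, hb⟩ : ∃ b, b = -Real.log (bb (D / 2)) := ⟨_, rfl⟩
  obtain ⟨p, hp⟩ : ∃ p, p = pp s (D - 1) := ⟨_, rfl⟩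
  obtain ⟨T, hT⟩ : ∃ T, T = TT D := ⟨_, rfl⟩
  obtain ⟨g, hg⟩ : ∃ g, g = gg s (D - 1) := ⟨_, rfl⟩
  obtain ⟨w, hw⟩ : ∃ w, w = KL.hp s (D - 1) := ⟨_, rfl⟩
  obtain ⟨x, hx⟩ : ∃ x, x = KL.hs D := ⟨_, rfl⟩
  -- relations
  have r1 : (s + 2) * x = b - p - T := by
    have := hs_eq (d := D) (by omega)
    rw [← hs, ← hx, ← hb, ← hp, ← hT] at this
    have e : (D : ℝ) + 1 = s + 2 := by rw [hs]; ring
    rwa [e] at this
  have r2 : p + s * w = g := by
    have := hp_rec s (k := D - 1) (by omega)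
    rwa [← hp, e1, ← hw, ← hg] at this
  have r3 : phi D (D - 1) = -b + p := by
    rw [phi_G (by omega : D - 1 < D), ← hs, ← hp, hb, neg_neg]
  have r4 : phi D (D - 2) = -b + p - w := by
    rw [phi_G (by omega : D - 2 < D), ← hs, hw, KL.hp, ← hp, hb, Nat.sub_sub]
    ring
  have r5 : AA D = x - b + p := by
    have : KL.hs D = AA D - phi D (D - 1) := rfl
    rw [← hx, r3] at this
    linarith
  have hp0 : 0 ≤ p := by
    rw [hp]
    exact pp_nonneg e1.le
  have hx2 : 1 - xx s (D - 1) = (s + 1) / (2 * s) := by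
    unfold xx
    rw [e1]
    field_simp
    ring
  have hg2 : g = -(1 / 2) * Real.log ((s + 1) / (2 * s)) := by
    rw [hg, gg, hx2]
  have hgl : g ≤ 1 / 2 * Real.log 2 := by
    have h1 : Real.log (1 / 2) ≤ Real.log ((s + 1) / (2 * s)) := by
      apply Real.log_le_log (by norm_num)
      rw [div_le_div_iff₀ (by norm_num) (by linarith)]
      linarith
    rw [one_div, Real.log_inv] at h1
    rw [hg2]
    linarith
  obtain ⟨c, hc⟩ : ∃ c, c = s * x + p - g := ⟨_, rfl⟩
  have hTle : T ≤ (Real.log (s + 2) / 2 + 1 / 20) / (s + 2) := by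
    have := TT_le hRT hD (by omega)
    have e : (D : ℝ) + 1 = s + 2 := by rw [hs]; ring
    rwa [← hT, e] at this
  have hD2 : ((D / 2 : ℕ) : ℝ) = D / 2 := by
    obtain ⟨m, rfl⟩ := hD
    have h3 : (m + m) / 2 = m := by omega
    rw [h3]
    push_cast
    ring
  have hble : 1 / 2 * Real.log (Real.pi * (s + 2 - 1 / 2) / 2) ≤ b := by
    have h1 := NCS.log_cb_le (D / 2)
    have h5 : bb (D / 2) = NCS.cb (D / 2) := rfl
    have e : 2 * (((D / 2 : ℕ) : ℝ)) + 1 / 2 = s + 2 - 1 / 2 := by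
      rw [hD2, hs]
      ring
    rw [e, ← h5] at h1
    rw [hb]
    linarith
  have hbu : b ≤ 24658 / 10000 + (s + 1) / 32 := by
    have h1 := Large_bb (D / 2) (by omega)
    have e : 2 * (((D / 2 : ℕ) : ℝ)) = s + 1 := by
      rw [hD2, hs]
      ring
    rw [e] at h1
    have h3 := Large_log_le (x := s + 1) (by linarith)
    rw [hb]
    linarith
  have hcle : (s + 2 - 2) * (b - T) / (s + 2) - 1 / 2 * Real.log 2 ≤ c := by
    have h1 : x = (b - p - T) / (s + 2) := by
      rw [eq_div_iff (by linarith), mul_comm]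
      exact r1
    have h3 : c = s * (b - T) / (s + 2) + 2 * p / (s + 2) - g := by
      rw [hc, h1]
      have : s + 2 ≠ 0 := by linarith
      field_simp
      ring
    have h4 : 0 ≤ 2 * p / (s + 2) := by positivity
    rw [h3, add_sub_cancel_right]
    linarith
  obtain ⟨f1, f2, f3, f4⟩ := Large_facts (by linarith : 41 ≤ s + 2) hTle hble hcle
  rw [add_sub_cancel_right] at f3
  obtain ⟨a, ha⟩ : ∃ a, a = (j : ℝ) / s := ⟨_, rfl⟩
  have haj : a * s = j := by
    rw [ha, div_mul_cancel₀ _ hs0.ne']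
  have ha2 : 2 / s ≤ a := by
    rw [ha]
    exact div_le_div_of_nonneg_right hjR hs0.le
  have hjs : (j : ℝ) ≤ s := by linarith
  have ha1 : a ≤ 1 := by
    rw [ha, div_le_one hs0]
    exact hjs
  -- the right side
  have hR : ((D : ℝ) + 1 + j) * AA D - ((D : ℝ) - 1 - j) * phi D (D - 2) -
      2 * j * phi D (D - 1) = -b + g - T + a * c := by
    have hDs : (D : ℝ) = s + 1 := by rw [hs]; ring
    rw [r3, r4, r5, hDs, ← haj, hc, ← r2]
    linear_combination r1
  unfold ScS6
  rw [hR]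
  obtain ⟨v, hv⟩ : ∃ v, v = ((D : ℝ) - 1 - j) * D / (2 * ((D : ℝ) - 1)) := ⟨_, rfl⟩
  rw [← hv]
  have hv0 : 0 ≤ v := by
    rw [hv]
    exact div_nonneg (mul_nonneg (by linarith) (by linarith)) (by linarith)
  have hvs : v ≤ s := by
    rw [hv, ← hs, div_le_iff₀ (by linarith)]
    have hDs : (D : ℝ) = s + 1 := by rw [hs]; ring
    rw [hDs]
    nlinarith
  have hva : v = (1 - a) * s * ((s + 1) / (2 * s)) := by
    have hDs : (D : ℝ) = s + 1 := by rw [hs]; ring
    rw [hv, ← hs, ← haj, hDs]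
    field_simp
  have hpos : 0 < FM (D - 1) 1 v := NUM.FM_pos (by rw [e1]; exact hvs)
  rcases le_total a (1 - 2 / (5 * c)) with hcase | hcase
  · have hc0 : 0 < c := by linarith
    have hlt : 1 - 2 / (5 * c) < 1 := by
      have : 0 < 2 / (5 * c) := by positivity
      linarith
    have e2 : T ≤ (1 - 2 / (5 * c)) * c + 1 / 2 * Real.log (1 - (1 - 2 / (5 * c))) := by
      rw [sub_sub_cancel]
      have : (1 - 2 / (5 * c)) * c = c - 2 / 5 := by field_simp
      rw [this]
      exact f4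
    have hm := Large_mid ha2 hcase hlt f3 e2
    have ha1' : a < 1 := lt_of_le_of_lt hcase hlt
    have hvpos : 0 < v := by
      rw [hva]
      have : 0 < 1 - a := by linarith
      positivity
    have h3 := FM_le_G (d := D) (k := D - 1) hD (by omega) (y := s - v) (by linarith)
      (by rw [← hs]; linarith)
    have e3 : D - (D - 1) = 1 := by omega
    rw [e3, e1, sub_sub_cancel, ← hs] at h3
    have e4 : 1 - (s - v) / s = (1 - a) * ((s + 1) / (2 * s)) := by
      rw [hva]
      field_simp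
      ring
    rw [e4] at h3
    have h1a : 0 < 1 - a := by linarith
    have hq : 0 < (s + 1) / (2 * s) := by positivity
    have h5 := Real.log_le_log hpos h3
    rw [Real.log_mul (bb_pos _).ne' (by positivity), one_div, Real.log_inv, Real.log_sqrt
      (by positivity), Real.log_mul h1a.ne' hq.ne'] at h5
    refine h5.trans ?_
    have h6 : Real.log (bb (D / 2)) = -b := by rw [hb, neg_neg]
    rw [h6]
    linarith
  · have h3 := Real.log_le_log hpos (Large_half hD (by omega) (by rw [e1]; exact hvs))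
    refine h3.trans ?_
    rw [one_div, Real.log_inv]
    have hc0 : 0 < c := by linarith
    have h5 : (1 - a) * c ≤ 2 / 5 := by
      have h6 : 1 - a ≤ 2 / (5 * c) := by linarith
      calc (1 - a) * c ≤ 2 / (5 * c) * c := mul_le_mul_of_nonneg_right h6 hc0.le
        _ = 2 / 5 := by field_simp
    have h6 : -b + g - T + a * c = -(2 * x) - 2 * T - (1 - a) * c := by
      rw [hc]
      linear_combination r1
    have h7 : x + T ≤ 146 / 1000 := by
      have h8 : (s + 2) * (x + T) ≤ (s + 2) * (146 / 1000) := by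
        nlinarith
      exact le_of_mul_le_mul_left h8 (by linarith)
    have h9 := Real.log_two_gt_d9
    norm_num at h9
    rw [h6]
    linarith

end MP_a3e05c_co.KL
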