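import Pool.Agent.Lib.MP_a3e05c_co.S6.Num
import Pool.Agent.Lib.MP_a3e05c_co.S6.Large

/-!
# EULER, scalar block S6 and case C5

Everything except the two monotonicity statements `HsAnti`, `GAnti`.
-/

open Finset

namespace MP_a3e05c_co.KL

/-- **S6.** -/
theorem S6_all (hR : NUM.RTlow) (hP : NUM.RTgen) (hRT : RTmain) {D j : ℕ} (hD : Even D)
    (h4 : 4 ≤ D) (h2 : 2 ≤ j) (hj : j + 1 ≤ D) : ScS6 D j := by
  rcases Nat.lt_or_ge D 40 with h | h
  · obtain ⟨m, hm⟩ : ∃ m, D = 2 * m + 4 := by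
      obtain ⟨r, hr⟩ := hD
      exact ⟨r - 2, by omega⟩
    subst hm
    exact NUM.S6_of_ck hR hP hD h4 hj (NUM.ck6_all m (by omega) j (by omega) h2)
  · exact S6_large hRT hD h h2 hj

variable {V E : Type} [Fintype V] [DecidableEq V] [Fintype E] [DecidableEq E]

/-- **C5** from the two monotonicity statements and the lower bounds for `RT n`. -/
theorem red_C5_anti (hR : NUM.RTlow) (hP : NUM.RTgen) (hRT : RTmain) (hA : HsAnti) (hG : GAnti)
    {hd : E → Bool → V} (hs : Simple hd) (hev : ∀ v, Even (deg hd v)) {A : Finset V}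
    {D : ℕ} (hT : Top hd A D) {w w₂ : V} (hw : w ∈ A) (hwf : Full hd A w) (hwD : deg hd w = D)
    (hw₂ : w₂ ∈ nb hd A w) (hw₂D : deg hd w₂ = D)
    (hall : ∀ u ∈ nb hd A w, Full hd A u) (hall₂ : ∀ u ∈ nb hd A w₂, Full hd A u)
    (hj : 2 ≤ (nb hd A w₂ \ NB hd A w).card) : Red hd A :=
  red_C5_of hA hG hs hev hT hw hwf hwD hw₂ hw₂D hall hall₂ hj fun _ h4 h2 hj =>
    S6_all hR hP hRT (hwD ▸ hev w) h4 h2 hj

end MP_a3e05c_co.KL
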