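import Pool.Agent.Lib.MP_a3e05c_co.IRR.Case234
import Pool.Agent.Lib.MP_a3e05c_co.NUM.FMn

/-!
# EULER, case C5: graph part

`w`, `w₂` adjacent, full, of maximal degree `D`, all the neighbours of both are full; `w` is
deleted for free, then `w₂` by the key lemma.
-/

open Finset

namespace MP_a3e05c_co.KL

variable {V E : Type} [Fintype V] [DecidableEq V] [Fintype E] [DecidableEq E]

/-- the gains of common neighbours decrease with the degree -/
def GAnti : Prop := ∀ a b : ℕ, Even a → Even b → 2 ≤ a → a ≤ b →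
  AA b - phi b (b - 2) ≤ AA a - phi a (a - 2)

/-- the scalar inequality S6 -/
def ScS6 (D j : ℕ) : Prop :=
  Real.log (FM (D - 1) 1 (((D : ℝ) - 1 - j) * D / (2 * ((D : ℝ) - 1)))) ≤
    ((D : ℝ) + 1 + j) * AA D - ((D : ℝ) - 1 - j) * phi D (D - 2) - 2 * j * phi D (D - 1)

/-- `ρ(d, d) = 1` -/
theorem Graph_rh_full {d : ℕ} (h : 2 ≤ d) : rh d d = 1 := by
  have h2 : (2 : ℝ) ≤ d := by exact_mod_cast h
  unfold rh
  rw [sub_self, zero_add, mul_one]
  exact div_self (by linarith)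

/-- `ρ(d, d - 1) ≤ (D - 2) / (2 (D - 1))`, `d ≤ D` -/
theorem Graph_rh_top {d D : ℕ} (h : 2 ≤ d) (hD : d ≤ D) :
    0 ≤ rh d (d - 1) ∧ rh d (d - 1) ≤ ((D : ℝ) - 2) / (2 * ((D : ℝ) - 1)) := by
  have h2 : (2 : ℝ) ≤ d := by exact_mod_cast h
  have h3 : (d : ℝ) ≤ D := by exact_mod_cast hD
  have e1 : ((d - 1 : ℕ) : ℝ) = (d : ℝ) - 1 := by
    rw [Nat.cast_sub (by omega)]; simp
  have e2 : rh d (d - 1) = ((d : ℝ) - 2) / (2 * ((d : ℝ) - 1)) := by
    unfold rh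
    rw [e1]
    congr 1
    · ring
    · ring
  rw [e2]
  constructor
  · exact div_nonneg (by linarith) (by linarith)
  · rw [div_le_div_iff₀ (by linarith) (by linarith)]
    nlinarith

/-- **C5.** -/
theorem red_C5_of (hA : HsAnti) (hG : GAnti) {hd : E → Bool → V} (hs : Simple hd)
    (hev : ∀ v, Even (deg hd v)) {A : Finset V}
    {D : ℕ} (hT : Top hd A D) {w w₂ : V} (hw : w ∈ A) (hwf : Full hd A w) (hwD : deg hd w = D)
    (hw₂ : w₂ ∈ nb hd A w) (hw₂D : deg hd w₂ = D)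
    (hall : ∀ u ∈ nb hd A w, Full hd A u) (hall₂ : ∀ u ∈ nb hd A w₂, Full hd A u)
    (hj : 2 ≤ (nb hd A w₂ \ NB hd A w).card)
    (hS6 : ∀ j : ℕ, 4 ≤ D → 2 ≤ j → j + 1 ≤ D → ScS6 D j) : Red hd A := by
  have hDe : Even D := hwD ▸ hev w
  have hk : kk hd A w = D := hwf.trans hwD
  have hk₂ : kk hd A w₂ = D := (hall w₂ hw₂).trans hw₂D
  obtain ⟨hw₂A, hadj⟩ := mem_nb.1 hw₂
  have hne : w₂ ≠ w := hadj.ne hs
  have hwn : w ∈ nb hd A w₂ := mem_nb.2 ⟨hw, hadj.symm⟩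
  set A' := A.erase w with hA'
  have hw₂' : w₂ ∈ A' := mem_erase.2 ⟨hne, hw₂A⟩
  -- the neighbours of `w₂` after the deletion of `w`
  obtain ⟨C, hC⟩ : ∃ C, C = nb hd A w ∩ nb hd A w₂ := ⟨_, rfl⟩
  obtain ⟨P, hP⟩ : ∃ P, P = nb hd A w₂ \ NB hd A w := ⟨_, rfl⟩
  obtain ⟨j, hjP⟩ : ∃ j, j = P.card := ⟨_, rfl⟩
  rw [← hP, ← hjP] at hj
  have hwC : w₂ ∉ C := by
    rw [hC]
    intro h
    exact (mem_nb.1 (mem_inter.1 h).2).2.ne hs rfl
  have hwnn : w ∉ nb hd A w := fun h => (mem_nb.1 h).2.ne hs rfl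
  have hnb' : nb hd A' w₂ = C ∪ P := by
    ext u
    rw [mem_nb, hA', mem_erase, mem_union, hC, hP, mem_inter, mem_sdiff, NB, mem_insert]
    simp only [mem_nb]
    constructor
    · rintro ⟨⟨h1, h2⟩, h3⟩
      by_cases h4 : Adj hd w u
      · exact Or.inl ⟨⟨h2, h4⟩, h2, h3⟩
      · exact Or.inr ⟨⟨h2, h3⟩, fun h5 => h5.elim h1 fun h6 => h4 h6.2⟩
    · rintro (⟨⟨h1, h2⟩, h3, h4⟩ | ⟨⟨h1, h2⟩, h3⟩)
      · exact ⟨⟨h2.ne hs, h1⟩, h4⟩
      · exact ⟨⟨fun h4 => h3 (Or.inl h4), h1⟩, h2⟩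
  have hdis : Disjoint C P := by
    rw [Finset.disjoint_left, hC, hP]
    intro u hu hu'
    rw [mem_inter] at hu
    rw [mem_sdiff, NB, mem_insert] at hu'
    exact hu'.2 (Or.inr hu.1)
  have hk₂' : kk hd A' w₂ + 1 = D := by
    have h1 := kk_erase hs hw w₂
    rw [if_pos hadj, hk₂] at h1
    exact h1.symm
  have hcard : C.card + j = D - 1 := by
    have h1 := card_nb hs A' w₂
    rw [hnb', card_union_of_disjoint hdis] at h1
    omega
  -- degrees
  have hdeg : ∀ v ∈ A, Full hd A v → deg hd v ≤ D := fun v hv h => h ▸ hT.le v hv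
  have hC1 : ∀ u ∈ C, Full hd A u ∧ Adj hd w u ∧ 2 ≤ deg hd u ∧ deg hd u ≤ D ∧
      kk hd A' u + 1 = deg hd u := by
    intro u hu
    rw [hC, mem_inter] at hu
    have h1 := hall u hu.1
    have h2 := (mem_nb.1 hu.1).2
    have h3 := kk_pos_of_nb hs hw hu.1
    have h4 := kk_erase hs hw u
    rw [if_pos h2, h1] at h4
    rw [h1] at h3
    obtain ⟨r, hr⟩ := hev u
    exact ⟨h1, h2, by omega, hdeg u (mem_nb.1 hu.1).1 h1, h4.symm⟩
  have hP1 : ∀ u ∈ P, Full hd A u ∧ 2 ≤ deg hd u ∧ deg hd u ≤ D ∧ kk hd A' u = deg hd u := by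
    intro u hu
    rw [hP, mem_sdiff, NB, mem_insert] at hu
    have h1 := hall₂ u hu.1
    have h2 : ¬ Adj hd w u := fun h => hu.2 (Or.inr (mem_nb.2 ⟨(mem_nb.1 hu.1).1, h⟩))
    have h3 := kk_pos_of_nb hs hw₂A hu.1
    have h4 := kk_erase hs hw u
    rw [if_neg h2, h1, add_zero] at h4
    rw [h1] at h3
    obtain ⟨r, hr⟩ := hev u
    exact ⟨h1, by omega, hdeg u (mem_nb.1 hu.1).1 h1, h4.symm⟩
  have hjD : j + 1 ≤ D := by omega
  have hD4 : 4 ≤ D := by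
    obtain ⟨r, hr⟩ := hDe
    omega
  have hDR : (4 : ℝ) ≤ D := by exact_mod_cast hD4
  have hcC : (C.card : ℝ) = (D : ℝ) - 1 - j := by
    have h1 : ((C.card + j : ℕ) : ℝ) = ((D - 1 : ℕ) : ℝ) := by rw [hcard]
    rw [Nat.cast_sub (by omega)] at h1
    push_cast at h1
    linarith
  -- the variance
  have hkR : (kk hd A' w₂ : ℝ) = (D : ℝ) - 1 := by
    have h1 : ((kk hd A' w₂ + 1 : ℕ) : ℝ) = (D : ℝ) := by rw [hk₂']
    push_cast at h1
    linarith
  have hsum : ∑ u ∈ nb hd A' w₂, rh (deg hd u) (kk hd A' u) ≤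
      ((D : ℝ) - 1 - j) * (((D : ℝ) - 2) / (2 * ((D : ℝ) - 1))) + j := by
    rw [hnb', sum_union hdis]
    have h1 : ∑ u ∈ C, rh (deg hd u) (kk hd A' u) ≤
        (C.card : ℝ) * (((D : ℝ) - 2) / (2 * ((D : ℝ) - 1))) := by
      rw [← nsmul_eq_mul]
      refine sum_le_card_nsmul _ _ _ fun u hu => ?_
      obtain ⟨_, _, h2, h3, h4⟩ := hC1 u hu
      have h5 : kk hd A' u = deg hd u - 1 := by omega
      rw [h5]
      exact (Graph_rh_top h2 h3).2
    have h2 : ∑ u ∈ P, rh (deg hd u) (kk hd A' u) = j := by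
      rw [hjP]
      have h3 : ∑ u ∈ P, rh (deg hd u) (kk hd A' u) = ∑ u ∈ P, (1 : ℝ) := by
        refine sum_congr rfl fun u hu => ?_
        obtain ⟨_, h2, _, h4⟩ := hP1 u hu
        rw [h4]
        exact Graph_rh_full h2
      rw [h3, sum_const, nsmul_eq_mul, mul_one]
    rw [h2]
    rw [hcC] at h1
    linarith
  have hsum0 : 0 ≤ ∑ u ∈ nb hd A' w₂, rh (deg hd u) (kk hd A' u) := by
    rw [hnb', sum_union hdis]
    refine add_nonneg (sum_nonneg fun u hu => ?_) (sum_nonneg fun u hu => ?_)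
    · obtain ⟨_, _, h2, h3, h4⟩ := hC1 u hu
      have h5 : kk hd A' u = deg hd u - 1 := by omega
      rw [h5]
      exact (Graph_rh_top h2 h3).1
    · obtain ⟨_, h2, _, h4⟩ := hP1 u hu
      rw [h4, Graph_rh_full h2]
      exact zero_le_one
  obtain ⟨z, hz⟩ : ∃ z, z =
      Real.log (FM (D - 1) 1 (((D : ℝ) - 1 - j) * D / (2 * ((D : ℝ) - 1)))) := ⟨_, rfl⟩
  have hkn : kk hd A' w₂ = D - 1 := by omega
  have hD1 : deg hd w₂ - (D - 1) = 1 := by omega
  have e1 : ((D - 1 : ℕ) : ℝ) = (D : ℝ) - 1 := by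
    rw [Nat.cast_sub (by omega)]; simp
  have hVle : ((D : ℝ) - 1 - j) * D / (2 * ((D : ℝ) - 1)) ≤ ((D - 1 : ℕ) : ℝ) := by
    rw [e1, div_le_iff₀ (by linarith)]
    have hj0 : (0 : ℝ) ≤ j := Nat.cast_nonneg j
    nlinarith
  have hstep : FM (kk hd A' w₂) (deg hd w₂ - kk hd A' w₂)
      ((kk hd A' w₂ : ℝ) - ∑ u ∈ nb hd A' w₂, rh (deg hd u) (kk hd A' u)) ≤ Real.exp z := by
    rw [hz, Real.exp_log (NUM.FM_pos hVle), hkn, hD1]
    apply NUM.FM_anti
    · rw [e1]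
      have h1 : ((D : ℝ) - 1 - j) * D / (2 * ((D : ℝ) - 1)) =
          (D : ℝ) - 1 - (((D : ℝ) - 1 - j) * (((D : ℝ) - 2) / (2 * ((D : ℝ) - 1))) + j) := by
        have h2 : (D : ℝ) - 1 ≠ 0 := by linarith
        field_simp
        ring
      rw [h1]
      linarith
    · linarith
  have hst := (Sl.free hs hw).trans (Sl.step hs hev hw₂' hstep)
  refine hst.red ?_ ?_
  swap
  · intro h
    have h1 : w ∈ (A.erase w).erase w₂ := by
      rw [h]
      exact hw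
    exact notMem_erase w A (mem_of_mem_erase h1)
  -- the gains
  have hg1 : (∑ u ∈ C, KL.hs (deg hd u)) + KL.hs D + j * KL.hs D ≤ gain hd A w := by
    unfold gain
    rw [← Finset.add_sum_erase _ _ hw₂, gain_full (hall w₂ hw₂), hw₂D]
    have hsub : C ⊆ (nb hd A w).erase w₂ := by
      intro u hu
      refine mem_erase.2 ⟨fun h => hwC (h ▸ hu), ?_⟩
      rw [hC, mem_inter] at hu
      exact hu.1
    rw [← Finset.sum_sdiff hsub]
    have h1 : ∑ u ∈ C, (phi (deg hd u) (kk hd A u) - phi (deg hd u) (kk hd A u - 1)) =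
        ∑ u ∈ C, KL.hs (deg hd u) := sum_congr rfl fun u hu => gain_full (hC1 u hu).1
    have h2 := Finset.card_nsmul_le_sum ((nb hd A w).erase w₂ \ C)
      (fun u => phi (deg hd u) (kk hd A u) - phi (deg hd u) (kk hd A u - 1)) (KL.hs D)
      fun u hu => by
        have h3 : u ∈ nb hd A w := mem_of_mem_erase (mem_sdiff.1 hu).1
        exact gain_full_ge hA hs hev hw h3 (hall u h3) hDe
          (hdeg u (mem_nb.1 h3).1 (hall u h3))
    have h4 : ((nb hd A w).erase w₂ \ C).card = j := by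
      rw [card_sdiff_of_subset hsub, card_erase_of_mem hw₂, card_nb hs, hk]
      omega
    rw [h4, nsmul_eq_mul] at h2
    rw [h1]
    linarith
  have hg2 : (∑ u ∈ C, (phi (deg hd u) (deg hd u - 1) - phi (deg hd u) (deg hd u - 2))) +
      j * KL.hs D ≤ gain hd A' w₂ := by
    unfold gain
    rw [hnb', sum_union hdis]
    have h1 : ∑ u ∈ C, (phi (deg hd u) (kk hd A' u) - phi (deg hd u) (kk hd A' u - 1)) =
        ∑ u ∈ C, (phi (deg hd u) (deg hd u - 1) - phi (deg hd u) (deg hd u - 2)) := by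
      refine sum_congr rfl fun u hu => ?_
      obtain ⟨_, _, _, _, h4⟩ := hC1 u hu
      have h5 : kk hd A' u = deg hd u - 1 := by omega
      rw [h5, Nat.sub_sub]
    have h2 := Finset.card_nsmul_le_sum P
      (fun u => phi (deg hd u) (kk hd A' u) - phi (deg hd u) (kk hd A' u - 1)) (KL.hs D)
      fun u hu => by
        obtain ⟨_, h3, h4, h5⟩ := hP1 u hu
        rw [h5, phi_full]
        exact hA _ _ (hev u) hDe h3 h4
    rw [← hjP, nsmul_eq_mul] at h2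
    rw [h1]
    linarith
  have hg3 : ((D : ℝ) - 1 - j) * (AA D - phi D (D - 2)) ≤ (∑ u ∈ C, KL.hs (deg hd u)) +
      ∑ u ∈ C, (phi (deg hd u) (deg hd u - 1) - phi (deg hd u) (deg hd u - 2)) := by
    rw [← sum_add_distrib, ← hcC, ← nsmul_eq_mul]
    refine card_nsmul_le_sum _ _ _ fun u hu => ?_
    obtain ⟨_, _, h3, h4, _⟩ := hC1 u hu
    have h5 := hG _ _ (hev u) hDe h3 h4
    unfold KL.hs
    linarith
  have hsc := hS6 j hD4 hj hjD
  unfold ScS6 at hsc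
  rw [← hz] at hsc
  rw [hwD, hk, phi_full, hw₂D, hkn]
  have hhs : KL.hs D = AA D - phi D (D - 1) := rfl
  rw [hhs] at hg1 hg2
  nlinarith

end MP_a3e05c_co.KL
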