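import Pool.Agent.Lib.MP_a3e05c_co.NUM.TabA

/-!
# EULER, scalar block S6, numerical part

`log F_(D-1,1)(V) ≤ (D + 1 + j) A_D - (D - 1 - j) φ_D(D-2) - 2 j φ_D(D-1)`,
`V = (D - 1 - j) D / (2 (D - 1))`, for small `D`.
-/

open Finset

namespace MP_a3e05c_co.NUM

open KL

/-- `S * (D - 1 - j) D / (2 (D - 1))`, rounded down -/
def t6 (D j : ℕ) : ℕ := (D - 1 - j) * D * S / (2 * (D - 1))

/-- the check -/
def ck6 (D j : ℕ) : Bool :=
  decide ((D + 1 + j : ℕ) * aU D ≤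
    (nlF (D - 1) 1 (t6 D j) : ℤ) + (D - 1 - j : ℕ) * pL D (D - 2) + (2 * j : ℕ) * pL D (D - 1))

theorem S6_of_ck (hR : RTlow) (hP : RTgen) {D j : ℕ} (hD : Even D) (h4 : 4 ≤ D) (hj : j + 1 ≤ D)
    (h : ck6 D j = true) :
    Real.log (FM (D - 1) 1 (((D : ℝ) - 1 - j) * D / (2 * ((D : ℝ) - 1)))) ≤
      ((D : ℝ) + 1 + j) * AA D - ((D : ℝ) - 1 - j) * phi D (D - 2) - 2 * j * phi D (D - 1) := by
  have hS := S_pos
  have hD4 : (4 : ℝ) ≤ D := by exact_mod_cast h4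
  have hjD : (j : ℝ) + 1 ≤ D := by exact_mod_cast hj
  have hj0 : (0 : ℝ) ≤ j := Nat.cast_nonneg j
  have e1 : ((D - 1 : ℕ) : ℝ) = (D : ℝ) - 1 := by
    rw [Nat.cast_sub (by omega)]; simp
  have e2 : ((D - 1 - j : ℕ) : ℝ) = (D : ℝ) - 1 - j := by
    rw [Nat.cast_sub (by omega), e1]
  have hV : (t6 D j : ℝ) / S ≤ ((D : ℝ) - 1 - j) * D / (2 * ((D : ℝ) - 1)) := by
    rw [div_le_iff₀ hS]
    have h1 := div_le' ((D - 1 - j) * D * S) (2 * (D - 1))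
    unfold t6
    refine h1.trans (le_of_eq ?_)
    push_cast [e1, e2]
    ring
  have hV2 : ((D : ℝ) - 1 - j) * D / (2 * ((D : ℝ) - 1)) ≤ ((D - 1 : ℕ) : ℝ) := by
    rw [e1, div_le_iff₀ (by linarith)]
    nlinarith
  have h1 := log_FM_le (M := 1) hV hV2
  have h2 := le_aU hR hP hD (by omega)
  have h3 := pL_le (d := D) (k := D - 2) (by omega) (by omega)
  have h5 := pL_le (d := D) (k := D - 1) (by omega) (by omega)
  have h6 : (((D + 1 + j : ℕ) * aU D : ℤ) : ℝ) ≤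
      (((nlF (D - 1) 1 (t6 D j) : ℤ) + (D - 1 - j : ℕ) * pL D (D - 2) +
        (2 * j : ℕ) * pL D (D - 1) : ℤ) : ℝ) := by
    exact_mod_cast of_decide_eq_true h
  push_cast [e2] at h6
  have h7 : (0 : ℝ) ≤ (D : ℝ) - 1 - j := by linarith
  have h8 := mul_le_mul_of_nonneg_left h2 (by linarith : (0 : ℝ) ≤ (D : ℝ) + 1 + j)
  have h9 := mul_le_mul_of_nonneg_left h3 h7
  have h10 := mul_le_mul_of_nonneg_left h5 (by linarith : (0 : ℝ) ≤ 2 * (j : ℝ))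
  have h11 : S * (-((nlF (D - 1) 1 (t6 D j) : ℝ) / S)) = -(nlF (D - 1) 1 (t6 D j) : ℝ) := by
    rw [mul_neg, mul_div_cancel₀ _ hS.ne']
  have h12 := mul_le_mul_of_nonneg_left h1 hS.le
  rw [h11] at h12
  have h13 : S * Real.log (FM (D - 1) 1 (((D : ℝ) - 1 - j) * D / (2 * ((D : ℝ) - 1)))) ≤
      S * (((D : ℝ) + 1 + j) * AA D - ((D : ℝ) - 1 - j) * phi D (D - 2) -
        2 * j * phi D (D - 1)) := by
    nlinarith
  exact le_of_mul_le_mul_left h13 hS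

/-- kernel check, `4 ≤ D ≤ 38` -/
theorem ck6_all : ∀ m < 18, ∀ j < 2 * m + 4, 2 ≤ j → ck6 (2 * m + 4) j = true := by
  decide +kernel

end MP_a3e05c_co.NUM
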